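import Mathlib

namespace Pool.Agent.MP_83cc0d_an

open MeasureTheory
open scoped ENNReal InnerProductSpace

/-- The `s`-energy `∬ |x - y|^(-s) dμ(x) dμ(y)`, with value in `[0, ∞]` (the integrand is `∞` on
the diagonal when `s > 0`). -/
noncomputable def energy {d : ℕ} (s : ℝ) (μ : Measure (EuclideanSpace ℝ (Fin d))) : ℝ≥0∞ :=
  ∫⁻ x, ∫⁻ y, edist x y ^ (-s) ∂μ ∂μ

/-- The volume `|(x 1 - x₀) ∧ ⋯ ∧ (x k - x₀)|`, the square root of the Gram determinant. -/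
noncomputable def pinnedVolume {d k : ℕ} (x₀ : EuclideanSpace ℝ (Fin d))
    (x : Fin k → EuclideanSpace ℝ (Fin d)) : ℝ :=
  √(Matrix.det (Matrix.of fun i j : Fin k => ⟪x i - x₀, x j - x₀⟫_ℝ))

end Pool.Agent.MP_83cc0d_an
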